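import Mathlib

set_option autoImplicit false

namespace Pool.Agent.H2368

/-- the value of `f` on a set -/
def g {n : ℕ} (T : Finset (Fin n)) : ℤ :=
  if 3 ≤ T.card then 3 * (T.card : ℤ) - 6 else if T.card = 2 then 1 else 0

def w {n : ℕ} (S : Finset (Finset (Fin n))) : ℤ := (-1 : ℤ) ^ (S.card + 1)

/-- all pairs -/
def prs (n : ℕ) : Finset (Finset (Fin n)) := (Finset.univ : Finset (Fin n)).powersetCard 2

/-- number of pairs contained in all members of `S` -/
def G {n : ℕ} (S : Finset (Finset (Fin n))) : ℤ :=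
  ∑ h ∈ prs n, if (∀ A ∈ S, h ⊆ A) then 1 else 0

theorem le_inf_iff' {n : ℕ} (S : Finset (Finset (Fin n))) (h : Finset (Fin n)) :
    (∀ A ∈ S, h ⊆ A) ↔ h ⊆ S.inf id := by
  have := Finset.le_inf_iff (s := S) (f := id) (a := h)
  simpa using this.symm

theorem G_eq {n : ℕ} (S : Finset (Finset (Fin n))) :
    G S = (((S.inf id).card.choose 2 : ℕ) : ℤ) := by
  unfold G
  have h1 : ∑ h ∈ prs n, (if (∀ A ∈ S, h ⊆ A) then (1:ℤ) else 0)
      = (((prs n).filter (fun h => ∀ A ∈ S, h ⊆ A)).card : ℤ) := by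
    rw [Finset.card_filter]
    push_cast
    rfl
  rw [h1]
  congr 1
  rw [← Finset.card_powersetCard]
  congr 1
  ext h
  simp only [prs, Finset.mem_filter, Finset.mem_powersetCard, Finset.subset_univ, true_and]
  rw [le_inf_iff']
  exact and_comm

theorem g_eq_G {n : ℕ} (S : Finset (Finset (Fin n))) (h : (S.inf id).card ≤ 2) :
    g (S.inf id) = G S := by
  rw [G_eq]
  unfold g
  rw [if_neg (by omega)]
  interval_cases hc : (S.inf id).card
  · simp
  · simp
  · simp

/-- the characteristic -/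
def chi {n : ℕ} (Z : Finset (Finset (Fin n))) : ℤ :=
  ∑ S ∈ Z.powerset.filter (fun S => S.Nonempty), w S * g (S.inf id)

theorem sum_wG_le {n : ℕ} (Z : Finset (Finset (Fin n))) :
    ∑ S ∈ Z.powerset, w S * G S ≤ 0 := by
  unfold G
  have h1 : ∑ S ∈ Z.powerset, w S * ∑ h ∈ prs n, (if (∀ A ∈ S, h ⊆ A) then (1:ℤ) else 0)
      = ∑ h ∈ prs n, ∑ S ∈ Z.powerset, (if (∀ A ∈ S, h ⊆ A) then w S else 0) := by
    rw [Finset.sum_comm]
    apply Finset.sum_congr rfl
    intro S _
    rw [Finset.mul_sum]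
    apply Finset.sum_congr rfl
    intro h _
    split_ifs <;> simp
  rw [h1]
  apply Finset.sum_nonpos
  intro h _
  rw [← Finset.sum_filter]
  have h2 : Z.powerset.filter (fun S => ∀ A ∈ S, h ⊆ A) = (Z.filter (fun A => h ⊆ A)).powerset := by
    ext S
    simp only [Finset.mem_filter, Finset.mem_powerset]
    constructor
    · rintro ⟨h3, h4⟩ A hA
      exact Finset.mem_filter.mpr ⟨h3 hA, h4 A hA⟩
    · intro h3
      exact ⟨fun A hA => (Finset.mem_filter.mp (h3 hA)).1,
        fun A hA => (Finset.mem_filter.mp (h3 hA)).2⟩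
  rw [h2]
  have h3 : ∑ S ∈ (Z.filter (fun A => h ⊆ A)).powerset, w S
      = -∑ S ∈ (Z.filter (fun A => h ⊆ A)).powerset, (-1 : ℤ) ^ S.card := by
    rw [← Finset.sum_neg_distrib]
    apply Finset.sum_congr rfl
    intro S _
    unfold w
    ring
  rw [h3, Finset.sum_powerset_neg_one_pow_card]
  split_ifs <;> simp

theorem inf_card_le {n : ℕ} (Z : Finset (Finset (Fin n)))
    (hthin : ∀ A ∈ Z, ∀ A' ∈ Z, A ≠ A' → (A ∩ A').card ≤ 2)
    (S : Finset (Finset (Fin n))) (hS : S ⊆ Z) (h2 : 2 ≤ S.card) : (S.inf id).card ≤ 2 := by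
  obtain ⟨A, hA, A', hA', hne⟩ := Finset.one_lt_card.mp (by omega : 1 < S.card)
  refine (Finset.card_le_card ?_).trans (hthin A (hS hA) A' (hS hA') hne)
  have h1 : S.inf id ≤ A := Finset.inf_le (f := id) hA
  have h3 : S.inf id ≤ A' := Finset.inf_le (f := id) hA'
  exact Finset.subset_inter h1 h3

theorem chi_le {n s : ℕ} (Z : Finset (Finset (Fin n))) (hs : 3 ≤ s)
    (hcard : ∀ A ∈ Z, A.card = s)
    (hthin : ∀ A ∈ Z, ∀ A' ∈ Z, A ≠ A' → (A ∩ A').card ≤ 2) :
    chi Z ≤ ((n.choose 2 : ℕ) : ℤ) + (Z.card : ℤ) * (3 * (s : ℤ) - 6 - ((s.choose 2 : ℕ) : ℤ)) := by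
  have hT := sum_wG_le Z
  have hsplit : ∑ S ∈ Z.powerset, w S * G S
      = ∑ S ∈ Z.powerset.filter (fun S => S.Nonempty), w S * G S - ((n.choose 2 : ℕ) : ℤ) := by
    rw [← Finset.sum_filter_add_sum_filter_not Z.powerset (fun S => S.Nonempty)]
    have h1 : Z.powerset.filter (fun S => ¬ S.Nonempty) = {∅} := by
      ext S
      simp only [Finset.mem_filter, Finset.mem_powerset, Finset.not_nonempty_iff_eq_empty,
        Finset.mem_singleton]
      constructor
      · exact fun h => h.2
      · rintro rfl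
        exact ⟨Finset.empty_subset _, rfl⟩
    rw [h1, Finset.sum_singleton, G_eq]
    simp [w]
    ring
  have hdiff : chi Z - ∑ S ∈ Z.powerset.filter (fun S => S.Nonempty), w S * G S
      = (Z.card : ℤ) * (3 * (s : ℤ) - 6 - ((s.choose 2 : ℕ) : ℤ)) := by
    unfold chi
    rw [← Finset.sum_sub_distrib]
    have himg : Z.image (fun A => ({A} : Finset (Finset (Fin n))))
        ⊆ Z.powerset.filter (fun S => S.Nonempty) := by
      intro S hS
      rw [Finset.mem_image] at hS
      obtain ⟨A, hA, rfl⟩ := hS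
      rw [Finset.mem_filter, Finset.mem_powerset]
      exact ⟨Finset.singleton_subset_iff.mpr hA, Finset.singleton_nonempty A⟩
    rw [← Finset.sum_subset himg]
    · rw [Finset.sum_image (fun A _ A' _ h => Finset.singleton_injective h)]
      rw [Finset.sum_congr rfl (g := fun _ => 3 * (s : ℤ) - 6 - ((s.choose 2 : ℕ) : ℤ))]
      · rw [Finset.sum_const]
        simp
      · intro A hA
        have hinf : (({A} : Finset (Finset (Fin n))).inf id) = A := by simp
        rw [G_eq, hinf, hcard A hA]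
        unfold g w
        rw [hcard A hA, if_pos hs]
        simp
    · intro S hS hSn
      rw [Finset.mem_filter, Finset.mem_powerset] at hS
      have h2 : 2 ≤ S.card := by
        by_contra hlt
        have h0 : 0 < S.card := Finset.card_pos.mpr hS.2
        have h1 : S.card = 1 := by omega
        obtain ⟨A, rfl⟩ := Finset.card_eq_one.mp h1
        apply hSn
        rw [Finset.mem_image]
        exact ⟨A, hS.1 (Finset.mem_singleton_self A), rfl⟩
      rw [g_eq_G S (inf_card_le Z hthin S hS.1 h2)]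
      ring
  linarith

/-! ### The example: graphs of quadratic polynomials over the field with seven elements -/

abbrev K := ZMod 7

def ev (p : K × K × K) (x : K) : K := p.1 * x ^ 2 + p.2.1 * x + p.2.2

def e : K × K ≃ Fin 49 := (finProdFinEquiv : Fin 7 × Fin 7 ≃ Fin (7 * 7))

def blk (p : K × K × K) : Finset (Fin 49) := Finset.univ.image (fun x : K => e (x, ev p x))

theorem blk_card (p : K × K × K) : (blk p).card = 7 := by
  unfold blk
  rw [Finset.card_image_of_injective]
  · simp
  · intro x y h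
    have := e.injective h
    exact (Prod.mk.inj this).1

theorem roots_le : ∀ p : K × K × K, p ≠ 0 → (Finset.univ.filter (fun x : K => ev p x = 0)).card ≤ 2 := by
  unfold ev
  decide +kernel

theorem ev_sub (p q : K × K × K) (x : K) : ev (p - q) x = ev p x - ev q x := by
  unfold ev
  simp
  ring

theorem inter_le (p q : K × K × K) (h : p ≠ q) : (blk p ∩ blk q).card ≤ 2 := by
  have h1 := roots_le (p - q) (sub_ne_zero.mpr h)
  refine le_trans ?_ h1
  have hsub : blk p ∩ blk q ⊆
      (Finset.univ.filter (fun x : K => ev (p - q) x = 0)).image (fun x => e (x, ev p x)) := by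
    intro y hy
    rw [Finset.mem_inter] at hy
    obtain ⟨hy1, hy2⟩ := hy
    unfold blk at hy1 hy2
    rw [Finset.mem_image] at hy1 hy2
    obtain ⟨x, _, rfl⟩ := hy1
    obtain ⟨x', _, hx'⟩ := hy2
    have hinj := e.injective hx'
    have hx : x' = x := (Prod.mk.inj hinj).1
    subst hx
    have hv : ev q x' = ev p x' := (Prod.mk.inj hinj).2
    rw [Finset.mem_image]
    refine ⟨x', ?_, rfl⟩
    rw [Finset.mem_filter]
    refine ⟨Finset.mem_univ _, ?_⟩
    rw [ev_sub, hv, sub_self]
  exact (Finset.card_le_card hsub).trans Finset.card_image_le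

theorem blk_inj : Function.Injective blk := by
  intro p q h
  by_contra hne
  have h1 := inter_le p q hne
  rw [h, Finset.inter_self, blk_card] at h1
  omega

def Z0 : Finset (Finset (Fin 49)) := Finset.univ.image blk

theorem Z0_card : Z0.card = 343 := by
  unfold Z0
  rw [Finset.card_image_of_injective _ blk_inj]
  simp [K]

theorem Z0_thin : ∀ A ∈ Z0, ∀ A' ∈ Z0, A ≠ A' → (A ∩ A').card ≤ 2 := by
  intro A hA A' hA' hne
  unfold Z0 at hA hA'
  rw [Finset.mem_image] at hA hA'
  obtain ⟨p, _, rfl⟩ := hA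
  obtain ⟨q, _, rfl⟩ := hA'
  exact inter_le p q (fun h => hne (by rw [h]))

theorem Z0_size : ∀ A ∈ Z0, A.card = 7 := by
  intro A hA
  unfold Z0 at hA
  rw [Finset.mem_image] at hA
  obtain ⟨p, _, rfl⟩ := hA
  exact blk_card p

theorem Z0_anti : IsAntichain (· ⊆ ·) (Z0 : Set (Finset (Fin 49))) := by
  intro A hA A' hA' hne hsub
  have h1 := Z0_thin A hA A' hA' hne
  have h2 : A ∩ A' = A := Finset.inter_eq_left.mpr hsub
  rw [h2, Z0_size A hA] at h1
  omega

theorem chi_Z0 : chi Z0 < 0 := by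
  have h := chi_le (s := 7) Z0 (by norm_num) Z0_size Z0_thin
  rw [Z0_card] at h
  have h1 : (49).choose 2 = 1176 := by decide
  have h2 : (7).choose 2 = 21 := by decide
  rw [h1, h2] at h
  norm_num at h
  omega

end Pool.Agent.H2368
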